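import Mathlib
import Pool.Agent.H69.GhysDefs
import Pool.Agent.H69.GhysProof

/-!
# Leafwise complex cycles need not be local superpositions of pseudoholomorphic curves

The question of Ghys has a negative answer for every `n ≥ 2` and `k ≥ 0`: on `M = ℂⁿ × ℝᵏ`,
foliated by the leaves `ℂⁿ × {t}`, with `J` the multiplication by `i`, there is a `C`-cycle which
near some point is not a nonnegative superposition of pseudoholomorphic curves.
-/

namespace Pool.Agent.Results.MP_03adb9_gt.TropicalCycle

open Pool.Agent.H69.Ghys

/-- For all `n ≥ 2` and `k ≥ 0`, on `M = ℂⁿ × ℝᵏ` foliated by the `ℂⁿ × {t}` with `J = i`, it is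
not true that every `C`-cycle is, in a neighbourhood of each point, a nonnegative superposition of
pseudoholomorphic curves. -/
theorem result (n k : ℕ) (hn : 2 ≤ n) :
    ¬ CyclesAreLocalSuperpositions (Fin n → ℂ) (Fin k → ℝ) :=
  main n k hn

end Pool.Agent.Results.MP_03adb9_gt.TropicalCycle
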